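import Pool.Agent.Y852.CS.Basic

/-!
# Non-compact operators on Hilbert spaces

The identity of `ℓ² × ℓ²` factors through every non-compact operator of a Hilbert space, so that a
non-compact operator of square zero is not commutator symmetric.
-/

set_option autoImplicit false

open Filter Topology

namespace Pool.Agent.Y852.CS

section
variable {H : Type*} [NormedAddCommGroup H] [InnerProductSpace ℂ H] [CompleteSpace H]

lemma exists_eps {N : H →L[ℂ] H} (hN : ¬ IsCompactOperator N) :
    ∃ ε : ℝ, 0 < ε ∧ ∀ s : Finset H, ∃ x : H, ‖x‖ = 1 ∧ ε ≤ ‖N x‖ ∧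
      ∀ v ∈ s, inner ℂ v x = 0 := by
  by_contra hcon
  push Not at hcon
  apply hN
  choose s hs using fun n : ℕ => hcon (1 / ((n : ℝ) + 1)) (by positivity)
  let U : ℕ → Submodule ℂ H := fun n => Submodule.span ℂ (s n : Set H)
  have hfd : ∀ n, FiniteDimensional ℂ (U n) := fun n => FiniteDimensional.span_finset ℂ (s n)
  have hlim : Tendsto (fun n => N.comp (U n).starProjection) atTop (𝓝 N) := by
    rw [tendsto_iff_norm_sub_tendsto_zero]
    refine squeeze_zero (fun n => norm_nonneg _) (fun n => ?_)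
      tendsto_one_div_add_atTop_nhds_zero_nat
    refine ContinuousLinearMap.opNorm_le_bound _ (by positivity) fun x => ?_
    set y : H := x - (U n).starProjection x with hy
    have hyo : ∀ v ∈ s n, inner ℂ v y = 0 := by
      intro v hv
      have h1 := (U n).sub_starProjection_mem_orthogonal x
      exact (Submodule.mem_orthogonal _ _).1 h1 v (Submodule.subset_span hv)
    have hyx : ‖y‖ ≤ ‖x‖ := by
      have h1 : inner ℂ ((U n).starProjection x) y = 0 :=
        (Submodule.mem_orthogonal _ _).1 ((U n).sub_starProjection_mem_orthogonal x) _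
          ((U n).starProjection_apply_mem x)
      have h2 := norm_add_sq_eq_norm_sq_add_norm_sq_of_inner_eq_zero (𝕜 := ℂ) _ _ h1
      rw [hy, add_sub_cancel, ← hy] at h2
      have h3 := norm_nonneg ((U n).starProjection x)
      nlinarith [norm_nonneg x, norm_nonneg y]
    have h3 : ‖N y‖ ≤ 1 / ((n : ℝ) + 1) * ‖y‖ := by
      rcases eq_or_ne y 0 with h0 | h0
      · rw [h0]; simp
      · have hpos : 0 < ‖y‖ := norm_pos_iff.2 h0
        by_contra hlt
        push Not at hlt
        obtain ⟨v, hv, hv2⟩ := hs n (((‖y‖⁻¹ : ℝ) : ℂ) • y) (by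
          rw [norm_smul, Complex.norm_real, norm_inv, norm_norm, inv_mul_cancel₀ hpos.ne']) (by
          rw [map_smul, norm_smul, Complex.norm_real, norm_inv, norm_norm, le_inv_mul_iff₀ hpos]
          linarith)
        apply hv2
        rw [inner_smul_right, hyo v hv, mul_zero]
    have h4 : (N.comp (U n).starProjection - N) x = - N y := by
      rw [hy, map_sub]
      show N ((U n).starProjection x) - N x = _
      abel
    rw [h4, norm_neg]
    refine h3.trans ?_
    gcongr
  refine isCompactOperator_of_tendsto hlim (Eventually.of_forall fun n => ?_)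
  have : ProperSpace (U n) := FiniteDimensional.proper ℂ (U n)
  have h := (isCompactOperator_of_locallyCompactSpace_dom
    ((U n).orthogonalProjectionOnto)).clm_comp (N.comp (U n).subtypeL)
  exact h

lemma exists_family {N : H →L[ℂ] H} (hN : ¬ IsCompactOperator N) :
    ∃ ε : ℝ, 0 < ε ∧ ∃ e : ℕ → H, Orthonormal ℂ e ∧
      (∀ i j, i ≠ j → inner ℂ (N (e i)) (N (e j)) = 0) ∧ ∀ i, ε ≤ ‖N (e i)‖ := by
  obtain ⟨ε, hε, h⟩ := exists_eps hN
  obtain ⟨e, he1, he2⟩ := exists_seq_of_forall_finset_exists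
    (fun x : H => ‖x‖ = 1 ∧ ε ≤ ‖N x‖)
    (fun x y => inner ℂ x y = 0 ∧ inner ℂ (N x) (N y) = 0) (by
      intro s _
      classical
      obtain ⟨x, h1, h2, h3⟩ := h (s ∪ s.image (fun v => ContinuousLinearMap.adjoint N (N v)))
      refine ⟨x, ⟨h1, h2⟩, fun v hv => ⟨h3 v (Finset.mem_union_left _ hv), ?_⟩⟩
      have h4 := h3 _ (Finset.mem_union_right _ (Finset.mem_image_of_mem _ hv))
      rwa [ContinuousLinearMap.adjoint_inner_left] at h4)
  refine ⟨ε, hε, e, ⟨fun i => (he1 i).1, fun i j hij => ?_⟩, fun i j hij => ?_,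
    fun i => (he1 i).2⟩
  · rcases lt_or_gt_of_ne hij with h | h
    · exact (he2 i j h).1
    · exact inner_eq_zero_symm.1 (he2 j i h).1
  · rcases lt_or_gt_of_ne hij with h | h
    · exact (he2 i j h).2
    · exact inner_eq_zero_symm.1 (he2 j i h).2

end

section iso
variable {K : Type*} [NormedAddCommGroup K] [InnerProductSpace ℂ K] [CompleteSpace K]

/-- the space `ℓ²` -/
abbrev L2 : Type := lp (fun _ : ℕ => ℂ) 2

/-- the isometry given by an orthonormal sequence -/
noncomputable def iso {g : ℕ → K} (hg : Orthonormal ℂ g) : L2 →ₗᵢ[ℂ] K :=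
  hg.orthogonalFamily.linearIsometry

lemma iso_hasSum {g : ℕ → K} (hg : Orthonormal ℂ g) (x : L2) :
    HasSum (fun i => x i • g i) (iso hg x) :=
  hg.orthogonalFamily.hasSum_linearIsometry x

lemma inner_iso_zero {g : ℕ → K} (hg : Orthonormal ℂ g) {v : K} (hv : ∀ i, inner ℂ v (g i) = 0)
    (x : L2) : inner ℂ v (iso hg x) = 0 := by
  have h1 := (iso_hasSum hg x).mapL (innerSL ℂ v)
  have h2 : (fun i => innerSL ℂ v (x i • g i)) = fun _ => (0 : ℂ) := by
    funext i
    rw [innerSL_apply_apply, inner_smul_right, hv, mul_zero]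
  rw [h2] at h1
  exact (h1.unique hasSum_zero)

lemma adj_iso {K' : Type*} [NormedAddCommGroup K'] [InnerProductSpace ℂ K'] [CompleteSpace K']
    (J : K →ₗᵢ[ℂ] K') (x : K) :
    ContinuousLinearMap.adjoint J.toContinuousLinearMap (J x) = x := by
  apply ext_inner_right ℂ
  intro w
  rw [ContinuousLinearMap.adjoint_inner_left]
  exact J.inner_map_map x w

omit [CompleteSpace K] in
lemma norm_sum_sq' (v : ℕ → K) (hv : ∀ i j, i ≠ j → inner ℂ (v i) (v j) = 0) (s : Finset ℕ) :
    ‖∑ i ∈ s, v i‖ ^ 2 = ∑ i ∈ s, ‖v i‖ ^ 2 := by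
  classical
  induction s using Finset.induction_on with
  | empty => simp
  | insert a s ha ih =>
    rw [Finset.sum_insert ha, Finset.sum_insert ha, ← ih, sq, sq, sq]
    apply norm_add_sq_eq_norm_sq_add_norm_sq_of_inner_eq_zero (𝕜 := ℂ)
    rw [inner_sum]
    apply Finset.sum_eq_zero
    intro i hi
    apply hv
    rintro rfl
    exact ha hi

lemma lower {N : K →L[ℂ] K} {e : ℕ → K} (he : Orthonormal ℂ e)
    (ho : ∀ i j, i ≠ j → inner ℂ (N (e i)) (N (e j)) = 0) {ε : ℝ} (hε : 0 < ε)
    (hb : ∀ i, ε ≤ ‖N (e i)‖) (x : L2) : ε * ‖x‖ ≤ ‖N (iso he x)‖ := by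
  have h1 : Tendsto (fun s : Finset ℕ => ∑ i ∈ s, x i • e i) atTop (𝓝 (iso he x)) :=
    iso_hasSum he x
  have h2 : ∀ s : Finset ℕ, ε * ‖∑ i ∈ s, x i • e i‖ ≤ ‖N (∑ i ∈ s, x i • e i)‖ := by
    intro s
    have h3 : (ε * ‖∑ i ∈ s, x i • e i‖) ^ 2 ≤ ‖N (∑ i ∈ s, x i • e i)‖ ^ 2 := by
      rw [mul_pow, norm_sum_sq' _ (fun i j hij => by
        rw [inner_smul_left, inner_smul_right, he.2 hij, mul_zero, mul_zero]), map_sum,
        norm_sum_sq' _ (fun i j hij => by
        rw [map_smul, map_smul, inner_smul_left, inner_smul_right, ho i j hij, mul_zero,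
          mul_zero]), Finset.mul_sum]
      apply Finset.sum_le_sum
      intro i _
      rw [map_smul, norm_smul, norm_smul, he.1 i, mul_one, mul_pow]
      have h4 : ε ^ 2 ≤ ‖N (e i)‖ ^ 2 := pow_le_pow_left₀ hε.le (hb i) 2
      have h5 : 0 ≤ ‖x i‖ ^ 2 := by positivity
      nlinarith
    exact (pow_le_pow_iff_left₀ (by positivity) (norm_nonneg _) two_ne_zero).1 h3
  have h6 : Tendsto (fun s : Finset ℕ => ε * ‖∑ i ∈ s, x i • e i‖) atTop
      (𝓝 (ε * ‖iso he x‖)) := h1.norm.const_mul ε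
  have h7 : Tendsto (fun s : Finset ℕ => ‖N (∑ i ∈ s, x i • e i)‖) atTop
      (𝓝 ‖N (iso he x)‖) := ((N.continuous.tendsto _).comp h1).norm
  have h8 := le_of_tendsto_of_tendsto' h6 h7 h2
  rwa [(iso he).norm_map] at h8

/-- the identity of `ℓ²` factors through every non-compact operator of a Hilbert space -/
lemma exists_factor {N : K →L[ℂ] K} (hN : ¬ IsCompactOperator N) :
    ∃ (A : L2 →L[ℂ] K) (B : K →L[ℂ] L2), ∀ x, B (N (A x)) = x := by
  obtain ⟨ε, hε, e, he, ho, hb⟩ := exists_family hN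
  set T : L2 →L[ℂ] K := N.comp (iso he).toContinuousLinearMap with hT
  have hu : IsUnit ((ContinuousLinearMap.adjoint T).comp T) := by
    apply ContinuousLinearMap.isUnit_of_forall_le_norm_inner_map _
      (c := ⟨ε ^ 2, by positivity⟩) (by exact_mod_cast pow_pos hε 2)
    intro x
    have h1 : inner ℂ (((ContinuousLinearMap.adjoint T).comp T) x) x = inner ℂ (T x) (T x) := by
      show inner ℂ (ContinuousLinearMap.adjoint T (T x)) x = _
      rw [ContinuousLinearMap.adjoint_inner_left]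
    have h2 : ε * ‖x‖ ≤ ‖T x‖ := lower he ho hε hb x
    rw [h1, inner_self_eq_norm_sq_to_K]
    show ‖x‖ ^ 2 * ε ^ 2 ≤ _
    rw [norm_pow]
    have h3 : ‖((‖T x‖ : ℝ) : ℂ)‖ = ‖T x‖ := by
      rw [Complex.norm_real, norm_norm]
    have h4 : (ε * ‖x‖) ^ 2 ≤ ‖T x‖ ^ 2 := pow_le_pow_left₀ (by positivity) h2 2
    calc ‖x‖ ^ 2 * ε ^ 2 = (ε * ‖x‖) ^ 2 := by ring
      _ ≤ ‖T x‖ ^ 2 := h4
      _ = _ := by congr 1; exact h3.symm
  obtain ⟨u, hu⟩ := hu
  refine ⟨(iso he).toContinuousLinearMap,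
    ((u⁻¹ : (L2 →L[ℂ] L2)ˣ) : L2 →L[ℂ] L2).comp (ContinuousLinearMap.adjoint T), fun x => ?_⟩
  have h1 : ((u⁻¹ : (L2 →L[ℂ] L2)ˣ) : L2 →L[ℂ] L2) * u = 1 := u.inv_mul
  rw [hu] at h1
  exact congrArg (fun f : L2 →L[ℂ] L2 => f x) h1

end iso

/-- a non-compact operator of square zero of a Hilbert space is not commutator symmetric -/
theorem not_sym_of_not_compact {H : Type*} [NormedAddCommGroup H] [InnerProductSpace ℂ H]
    [CompleteSpace H] {N : H →L[ℂ] H} (hN : N * N = 0) (hc : ¬ IsCompactOperator N) :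
    ¬ Sym N := by
  obtain ⟨A, B, hAB⟩ := exists_factor hc
  let b : HilbertBasis ℕ ℂ L2 := HilbertBasis.ofRepr (LinearIsometryEquiv.refl ℂ L2)
  have hb : Orthonormal ℂ b := b.orthonormal
  have hev : Orthonormal ℂ fun n => b (2 * n) := hb.comp _ (fun i j h => by
    have : 2 * i = 2 * j := h
    omega)
  have hod : Orthonormal ℂ fun n => b (2 * n + 1) := hb.comp _ (fun i j h => by
    have : 2 * i + 1 = 2 * j + 1 := h
    omega)
  have hsh : Orthonormal ℂ fun n => b (n + 1) := hb.comp _ (fun i j h => by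
    have : i + 1 = j + 1 := h
    omega)
  set J1 := iso hev with hJ1
  set J2 := iso hod with hJ2
  set V := iso hsh with hV
  have h12 : ∀ x y, inner ℂ (J1 x) (J2 y) = 0 := by
    intro x y
    rw [← inner_eq_zero_symm]
    apply inner_iso_zero
    intro i
    rw [← inner_eq_zero_symm]
    apply inner_iso_zero
    intro j
    exact hb.2 (by omega)
  have e12 : ∀ y, ContinuousLinearMap.adjoint J1.toContinuousLinearMap (J2 y) = 0 := by
    intro y
    apply ext_inner_right ℂ
    intro w
    rw [ContinuousLinearMap.adjoint_inner_left, inner_zero_left]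
    exact inner_eq_zero_symm.1 (h12 w y)
  have e21 : ∀ y, ContinuousLinearMap.adjoint J2.toContinuousLinearMap (J1 y) = 0 := by
    intro y
    apply ext_inner_right ℂ
    intro w
    rw [ContinuousLinearMap.adjoint_inner_left, inner_zero_left]
    exact h12 y w
  have hW0 : ContinuousLinearMap.adjoint V.toContinuousLinearMap (b 0) = 0 := by
    apply ext_inner_right ℂ
    intro w
    rw [ContinuousLinearMap.adjoint_inner_left, inner_zero_left]
    exact inner_iso_zero hsh (fun j => hb.2 (by omega)) w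
  refine not_sym_of_factor (Z := L2) (V := V.toContinuousLinearMap)
    (W := ContinuousLinearMap.adjoint V.toContinuousLinearMap) (fun z => adj_iso V z)
    ⟨b 0, ?_⟩ hN
    (A.comp (J1.toContinuousLinearMap.coprod J2.toContinuousLinearMap))
    (((ContinuousLinearMap.adjoint J1.toContinuousLinearMap).prod
      (ContinuousLinearMap.adjoint J2.toContinuousLinearMap)).comp B) ?_
  · rw [hW0, map_zero]
    intro h
    have h1 := hb.1 0
    rw [← h, norm_zero] at h1
    exact zero_ne_one h1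
  · intro z
    show ((ContinuousLinearMap.adjoint J1.toContinuousLinearMap)
        (B (N (A (J1 z.1 + J2 z.2)))),
      (ContinuousLinearMap.adjoint J2.toContinuousLinearMap)
        (B (N (A (J1 z.1 + J2 z.2))))) = z
    rw [hAB, map_add, map_add, e12, e21, adj_iso, adj_iso, add_zero, zero_add]

end Pool.Agent.Y852.CS
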