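import Mathlib

/-!
# Commutators with an operator of square zero

`Sym T`: the spectra of all commutators with `T` are symmetric about the origin. For `N` of square
zero we show that `Sym N` holds if `N` is compact, and that it fails if the identity operator of
`Z × Z` factors through `N`, for a Banach space `Z` with operators `V`, `W` such that `W V = 1` and
`V W ≠ 1`.
-/

set_option autoImplicit false

open Filter Topology

namespace Pool.Agent.Y852.CS

variable {X : Type*} [NormedAddCommGroup X] [NormedSpace ℂ X]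

/-- The spectra of all commutators with `T` are symmetric about the origin. -/
def Sym (T : X →L[ℂ] X) : Prop :=
  ∀ S : X →L[ℂ] X, ∀ z ∈ spectrum ℂ (T * S - S * T), -z ∈ spectrum ℂ (T * S - S * T)

lemma sym_shift (T : X →L[ℂ] X) (a : ℂ) : Sym (T - a • (1 : X →L[ℂ] X)) ↔ Sym T := by
  have h : ∀ S : X →L[ℂ] X, (T - a • (1 : X →L[ℂ] X)) * S - S * (T - a • (1 : X →L[ℂ] X)) =
      T * S - S * T := by
    intro S
    ext x
    simp
  unfold Sym
  simp only [h]

lemma isUnit_left {R : Type*} [Monoid R] {a b : R} (h : IsUnit (a * b)) (hb : IsUnit b) :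
    IsUnit a := by
  obtain ⟨u, rfl⟩ := hb
  exact (Units.isUnit_mul_units a u).1 h

lemma isUnit_right {R : Type*} [Monoid R] {a b : R} (h : IsUnit (a * b)) (ha : IsUnit a) :
    IsUnit b := by
  obtain ⟨u, rfl⟩ := ha
  exact (Units.isUnit_units_mul u b).1 h

lemma swap_unit {z : ℂ} (hz : z ≠ 0) {A B : X →L[ℂ] X}
    (h : IsUnit (algebraMap ℂ (X →L[ℂ] X) z - A * B)) :
    IsUnit (algebraMap ℂ (X →L[ℂ] X) z - B * A) := by
  have h1 := spectrum.nonzero_mul_comm (𝕜 := ℂ) A B
  by_contra hcon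
  have h2 : z ∈ spectrum ℂ (B * A) \ {0} := ⟨hcon, hz⟩
  rw [← h1] at h2
  exact h2.1 h

/-- a compact operator of square zero is commutator symmetric -/
theorem sym_of_compact [CompleteSpace X] {N : X →L[ℂ] X} (hN : N * N = 0)
    (hc : IsCompactOperator N) : Sym N := by
  intro S z hz hu
  apply hz
  rcases eq_or_ne z 0 with rfl | hz0
  · simpa using hu
  have hNN : ∀ x, N (N x) = 0 := fun x => congrArg (fun f : X →L[ℂ] X => f x) hN
  have e1 : (algebraMap ℂ (X →L[ℂ] X) z - S * N) * (algebraMap ℂ (X →L[ℂ] X) z + N * S) =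
      algebraMap ℂ (X →L[ℂ] X) (-z) * (algebraMap ℂ (X →L[ℂ] X) (-z) - (N * S - S * N)) := by
    ext x
    simp [Algebra.algebraMap_eq_smul_one, hNN]
    module
  have e2 : (algebraMap ℂ (X →L[ℂ] X) z + S * N) * (algebraMap ℂ (X →L[ℂ] X) z - N * S) =
      algebraMap ℂ (X →L[ℂ] X) z * (algebraMap ℂ (X →L[ℂ] X) z - (N * S - S * N)) := by
    ext x
    simp [Algebra.algebraMap_eq_smul_one, hNN]
    module
  have u1 : IsUnit (algebraMap ℂ (X →L[ℂ] X) z) := (IsUnit.mk0 z hz0).map _
  have u2 : IsUnit (algebraMap ℂ (X →L[ℂ] X) (-z)) := (IsUnit.mk0 (-z) (neg_ne_zero.2 hz0)).map _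
  have h1 : IsUnit ((algebraMap ℂ (X →L[ℂ] X) z - S * N) *
      (algebraMap ℂ (X →L[ℂ] X) z + N * S)) := by
    rw [e1]
    exact u2.mul hu
  have hcomp : IsCompactOperator (N * S : X →L[ℂ] X) := hc.comp_clm S
  have h2 : IsUnit (algebraMap ℂ (X →L[ℂ] X) (-z) - N * S) := by
    rcases hcomp.hasEigenvalue_or_mem_resolventSet (neg_ne_zero.2 hz0) with h | h
    · exfalso
      obtain ⟨x, hx⟩ := h.exists_hasEigenvector
      have h3 := hx.apply_eq_smul
      have h4 : N (S x) = -z • x := h3
      have h5 : (algebraMap ℂ (X →L[ℂ] X) z + N * S) x = 0 := by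
        simp [Algebra.algebraMap_eq_smul_one, h4]
      have h6 := (ContinuousLinearMap.isUnit_iff_bijective.1 h1).1
      have h7 : ((algebraMap ℂ (X →L[ℂ] X) z - S * N) *
          (algebraMap ℂ (X →L[ℂ] X) z + N * S)) x = 0 := by
        show (algebraMap ℂ (X →L[ℂ] X) z - S * N) ((algebraMap ℂ (X →L[ℂ] X) z + N * S) x) = 0
        rw [h5, map_zero]
      exact hx.2 (h6 (h7.trans (map_zero _).symm))
    · exact h
  have h3 : IsUnit (algebraMap ℂ (X →L[ℂ] X) (-z) - S * N) := swap_unit (neg_ne_zero.2 hz0) h2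
  have h4 : IsUnit (algebraMap ℂ (X →L[ℂ] X) z + N * S) := by
    have : algebraMap ℂ (X →L[ℂ] X) z + N * S = -(algebraMap ℂ (X →L[ℂ] X) (-z) - N * S) := by
      rw [map_neg]; abel
    rw [this]
    exact h2.neg
  have h5 : IsUnit (algebraMap ℂ (X →L[ℂ] X) z + S * N) := by
    have : algebraMap ℂ (X →L[ℂ] X) z + S * N = -(algebraMap ℂ (X →L[ℂ] X) (-z) - S * N) := by
      rw [map_neg]; abel
    rw [this]
    exact h3.neg
  have h6 := swap_unit hz0 (isUnit_left h1 h4)
  have h7 : IsUnit ((algebraMap ℂ (X →L[ℂ] X) z + S * N) *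
      (algebraMap ℂ (X →L[ℂ] X) z - N * S)) := h5.mul h6
  rw [e2] at h7
  exact isUnit_right h7 u1

/-- if the identity of `Z × Z` factors through `N` and `Z` has a left invertible operator which is
not invertible, then `N` is not commutator symmetric -/
theorem not_sym_of_factor [CompleteSpace X] {Z : Type*} [NormedAddCommGroup Z] [NormedSpace ℂ Z]
    [CompleteSpace Z] {V W : Z →L[ℂ] Z} (hWV : ∀ z, W (V z) = z) (hVW : ∃ z, V (W z) ≠ z)
    {N : X →L[ℂ] X} (hN : N * N = 0)
    (A : Z × Z →L[ℂ] X) (B : X →L[ℂ] Z × Z) (hB : ∀ z, B (N (A z)) = z) : ¬ Sym N := by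
  intro hS
  have hNN : ∀ x, N (N x) = 0 := fun x => congrArg (fun f : X →L[ℂ] X => f x) hN
  obtain ⟨s, hs0, hsV, hsW⟩ : ∃ s : ℂ, s ≠ 0 ∧ ‖s • V‖ < 1 ∧ ‖s • W‖ < 1 := by
    refine ⟨((1 / (1 + ‖V‖ + ‖W‖) : ℝ) : ℂ), ?_, ?_, ?_⟩
    · rw [Complex.ofReal_ne_zero]; positivity
    · rw [norm_smul, Complex.norm_real, Real.norm_of_nonneg (by positivity), one_div,
        inv_mul_lt_iff₀ (by positivity)]
      have := norm_nonneg W
      linarith
    · rw [norm_smul, Complex.norm_real, Real.norm_of_nonneg (by positivity), one_div,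
        inv_mul_lt_iff₀ (by positivity)]
      have := norm_nonneg V
      linarith
  have bV := ContinuousLinearMap.isUnit_iff_bijective.1 (isUnit_one_sub_of_norm_lt_one hsV)
  have bW := ContinuousLinearMap.isUnit_iff_bijective.1 (isUnit_one_sub_of_norm_lt_one hsW)
  set A1 : Z × Z →L[ℂ] X := A - (N.comp A).comp (B.comp A) with hA1
  have hE : ∀ z, N (A1 z) = N (A z) := by
    intro z
    simp [hA1, hNN]
  have hBA : ∀ z, B (A1 z) = 0 := by
    intro z
    simp [hA1, hB]
  have hBE : ∀ z, B (N (A1 z)) = z := fun z => by rw [hE, hB]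
  let r : Z × Z →L[ℂ] Z × Z :=
    ((1 - (2 * s) • V).comp (ContinuousLinearMap.fst ℂ Z Z)).prod
      (((2 * s) • W - 1).comp (ContinuousLinearMap.snd ℂ Z Z))
  let q : Z × Z →L[ℂ] Z × Z :=
    ((V.comp W - 1).comp (ContinuousLinearMap.snd ℂ Z Z)).prod 0
  have hr : ∀ z, r z = (z.1 - (2 * s) • V z.1, (2 * s) • W z.2 - z.2) := by
    intro z
    simp [r]
  have hq : ∀ z, q z = (V (W z.2) - z.2, 0) := by
    intro z
    simp [q]
  set S : X →L[ℂ] X := A1.comp (r.comp B) + A1.comp (q.comp (B.comp N)) with hSdef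
  have hC : ∀ x, (N * S - S * N) x =
      N (A1 (r (B x) + q (B (N x)))) - A1 (r (B (N x))) := by
    intro x
    simp [hSdef, hNN]
  have h1 : (-1 : ℂ) ∈ spectrum ℂ (N * S - S * N) := by
    intro hu
    have hinj := (ContinuousLinearMap.isUnit_iff_bijective.1 hu).1
    obtain ⟨x0, hx0⟩ := hVW
    set w : Z := x0 - V (W x0) with hw
    have hw0 : w ≠ 0 := fun h => hx0 (sub_eq_zero.1 h).symm
    have hWw : W w = 0 := by rw [hw, map_sub, hWV, sub_self]
    have hz0 : r ((0 : Z), w) = -((0 : Z), w) := by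
      rw [hr]
      simp [hWw]
    have h2 : (algebraMap ℂ (X →L[ℂ] X) (-1) - (N * S - S * N)) (N (A1 (0, w))) = 0 := by
      rw [_root_.sub_apply, hC, hBE, hNN, map_zero, map_zero, map_zero, add_zero, map_zero, hz0,
        map_neg, map_neg]
      simp [Algebra.algebraMap_eq_smul_one]
    have h3 := hinj (h2.trans (map_zero _).symm)
    have h4 := congrArg B h3
    rw [hBE, map_zero] at h4
    exact hw0 (congrArg Prod.snd h4)
  have h2 := hS S _ h1
  rw [neg_neg] at h2
  apply h2
  show IsUnit (algebraMap ℂ (X →L[ℂ] X) 1 - (N * S - S * N))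
  rw [map_one, ContinuousLinearMap.isUnit_iff_bijective]
  have hD : ∀ x, (1 - (N * S - S * N)) x =
      x - (N (A1 (r (B x) + q (B (N x)))) - A1 (r (B (N x)))) := by
    intro x
    rw [_root_.sub_apply, hC]
    rfl
  constructor
  · rw [injective_iff_map_eq_zero]
    intro x hx
    rw [hD, sub_eq_zero] at hx
    have k1 : B x = r (B x) + q (B (N x)) := by
      conv_lhs => rw [hx]
      rw [map_sub, hBE, hBA, sub_zero]
    have k2 : B (N x) = - r (B (N x)) := by
      conv_lhs => rw [hx]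
      rw [map_sub, hNN, zero_sub, map_neg, hBE]
    set b := B x with hb
    set f := B (N x) with hf
    rw [hr, hq] at k1
    rw [hr] at k2
    have k11 := congrArg Prod.fst k1
    have k12 := congrArg Prod.snd k1
    have k21 := congrArg Prod.fst k2
    have k22 := congrArg Prod.snd k2
    simp only [Prod.fst_add, Prod.snd_add, Prod.fst_neg, Prod.snd_neg, add_zero] at k11 k12 k21 k22
    have f1 : f.1 = 0 := by
      apply bV.1
      rw [map_zero, _root_.sub_apply]
      show f.1 - s • V f.1 = 0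
      have h : (2 : ℂ) • (f.1 - s • V f.1) = 0 := by
        have : (2 : ℂ) • (f.1 - s • V f.1) = f.1 + (f.1 - (2 * s) • V f.1) := by module
        rw [this]
        nth_rewrite 1 [k21]
        abel
      exact (smul_eq_zero.1 h).resolve_left two_ne_zero
    have b2 : b.2 = 0 := by
      apply bW.1
      rw [map_zero, _root_.sub_apply]
      show b.2 - s • W b.2 = 0
      have h : (2 : ℂ) • (b.2 - s • W b.2) = 0 := by
        have : (2 : ℂ) • (b.2 - s • W b.2) = b.2 - ((2 * s) • W b.2 - b.2) := by module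
        rw [this, ← k12, sub_self]
      exact (smul_eq_zero.1 h).resolve_left two_ne_zero
    have f2 : W f.2 = 0 := by
      have h : (2 * s) • W f.2 = 0 := by
        have : (2 * s) • W f.2 = f.2 + ((2 * s) • W f.2 - f.2) := by abel
        rw [this]
        nth_rewrite 1 [k22]
        abel
      exact (smul_eq_zero.1 h).resolve_left (mul_ne_zero two_ne_zero hs0)
    rw [f2, map_zero, zero_sub] at k11
    have b1' : (2 * s) • V b.1 = - f.2 := by
      have : (2 * s) • V b.1 = b.1 - (b.1 - (2 * s) • V b.1) := by abel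
      rw [this]
      nth_rewrite 1 [k11]
      abel
    have b1 : b.1 = 0 := by
      have h := congrArg W b1'
      rw [map_smul, hWV, map_neg, f2, neg_zero] at h
      exact (smul_eq_zero.1 h).resolve_left (mul_ne_zero two_ne_zero hs0)
    have f2' : f.2 = 0 := by
      rw [b1, map_zero, smul_zero] at b1'
      exact neg_eq_zero.1 b1'.symm
    have hb0 : b = 0 := Prod.ext b1 b2
    have hf0 : f = 0 := Prod.ext f1 f2'
    rw [hx, hb0, hf0]
    simp
  · intro y
    obtain ⟨f1, hf1⟩ := bV.2 ((2 : ℂ)⁻¹ • (B (N y)).1)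
    obtain ⟨b2, hb2⟩ := bW.2 ((2 : ℂ)⁻¹ • (B y).2)
    replace hf1 : f1 - s • V f1 = (2 : ℂ)⁻¹ • (B (N y)).1 := hf1
    replace hb2 : b2 - s • W b2 = (2 : ℂ)⁻¹ • (B y).2 := hb2
    set b1 : Z := (2 * s)⁻¹ • W (B y).1 with hb1
    set f2 : Z := (B y).1 - V (W (B y).1) + (2 * s)⁻¹ • V (B (N y)).2 with hf2
    have h2s : (2 * s) ≠ 0 := mul_ne_zero two_ne_zero hs0
    have hWf2 : (2 * s) • W f2 = (B (N y)).2 := by
      rw [hf2, map_add, map_sub, hWV, sub_self, zero_add, map_smul, hWV, smul_smul,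
        mul_inv_cancel₀ h2s, one_smul]
    have hVb1 : (2 * s) • V b1 = V (W (B y).1) := by
      rw [hb1, map_smul, smul_smul, mul_inv_cancel₀ h2s, one_smul]
    have hVWf2 : V (W f2) - f2 = V (W (B y).1) - (B y).1 := by
      rw [hf2, map_add, map_sub, hWV, sub_self, zero_add, map_smul, hWV, map_smul]
      abel
    set x : X := y + (N (A1 (r (b1, b2) + q (f1, f2))) - A1 (r (f1, f2))) with hx
    have hBx : B x = (b1, b2) := by
      rw [hx, map_add, map_sub, hBE, hBA, sub_zero, hr, hq]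
      apply Prod.ext
      · show (B y).1 + (b1 - (2 * s) • V b1 + (V (W f2) - f2)) = b1
        rw [hVb1, hVWf2]
        abel
      · show (B y).2 + ((2 * s) • W b2 - b2 + 0) = b2
        have : (B y).2 = (2 : ℂ) • (b2 - s • W b2) := by
          rw [hb2, smul_smul, mul_inv_cancel₀ two_ne_zero, one_smul]
        rw [this]
        module
    have hFx : B (N x) = (f1, f2) := by
      rw [hx, map_add, map_sub, hNN, zero_sub, map_add, map_neg, hBE, hr]
      apply Prod.ext
      · show (B (N y)).1 + -(f1 - (2 * s) • V f1) = f1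
        have : (B (N y)).1 = (2 : ℂ) • (f1 - s • V f1) := by
          rw [hf1, smul_smul, mul_inv_cancel₀ two_ne_zero, one_smul]
        rw [this]
        module
      · show (B (N y)).2 + -((2 * s) • W f2 - f2) = f2
        rw [hWf2]
        abel
    refine ⟨x, ?_⟩
    rw [hD, hBx, hFx, hx]
    abel

end Pool.Agent.Y852.CS
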